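import Mathlib

/-!
Representation of primes by the two forms of discriminant -24 (Thue lemma).
-/

namespace Pool.Agent.H24.Sun

/-- Thue's lemma. -/
theorem thue_lemma (p : ℕ) [hp : Fact p.Prime] (r : ZMod p) :
    ∃ a b : ℤ, (a ≠ 0 ∨ b ≠ 0) ∧ a ^ 2 < p ∧ b ^ 2 < p ∧ (a : ZMod p) = r * b := by
  classical
  set s := Nat.sqrt p with hs
  have hs1 : p < (s + 1) * (s + 1) := Nat.lt_succ_sqrt p
  have hs2 : s * s ≤ p := Nat.sqrt_le p
  have hs3 : s * s < p := by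
    rcases Nat.lt_or_ge (s * s) p with h | h
    · exact h
    · exfalso
      have he : s * s = p := le_antisymm hs2 h
      have hpr := hp.out
      have hd : s ∣ p := ⟨s, he.symm⟩
      rcases (Nat.dvd_prime hpr).mp hd with h1 | h1
      · rw [h1] at he
        have := hpr.two_le
        omega
      · rw [h1] at he
        have := hpr.two_le
        nlinarith
  let f : (Fin (s + 1) × Fin (s + 1)) → ZMod p := fun u => ((u.1 : ℕ) : ZMod p) - r * ((u.2 : ℕ) : ZMod p)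
  have hcard : Fintype.card (ZMod p) < Fintype.card (Fin (s + 1) × Fin (s + 1)) := by
    rw [ZMod.card, Fintype.card_prod, Fintype.card_fin]
    exact hs1
  obtain ⟨u, v, huv, hf⟩ := Fintype.exists_ne_map_eq_of_card_lt f hcard
  refine ⟨(u.1 : ℤ) - (v.1 : ℤ), (u.2 : ℤ) - (v.2 : ℤ), ?_, ?_, ?_, ?_⟩
  · by_contra hcon
    push Not at hcon
    obtain ⟨h1, h2⟩ := hcon
    apply huv
    ext
    · have : ((u.1 : ℕ) : ℤ) = ((v.1 : ℕ) : ℤ) := by linarith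
      exact_mod_cast this
    · have : ((u.2 : ℕ) : ℤ) = ((v.2 : ℕ) : ℤ) := by linarith
      exact_mod_cast this
  · have h1 : ((u.1 : ℕ) : ℤ) ≤ s := by exact_mod_cast Nat.lt_succ_iff.mp u.1.2
    have h2 : ((v.1 : ℕ) : ℤ) ≤ s := by exact_mod_cast Nat.lt_succ_iff.mp v.1.2
    have h3 : (0 : ℤ) ≤ ((u.1 : ℕ) : ℤ) := by positivity
    have h4 : (0 : ℤ) ≤ ((v.1 : ℕ) : ℤ) := by positivity
    have h5 : (s : ℤ) * s < p := by exact_mod_cast hs3
    nlinarith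
  · have h1 : ((u.2 : ℕ) : ℤ) ≤ s := by exact_mod_cast Nat.lt_succ_iff.mp u.2.2
    have h2 : ((v.2 : ℕ) : ℤ) ≤ s := by exact_mod_cast Nat.lt_succ_iff.mp v.2.2
    have h3 : (0 : ℤ) ≤ ((u.2 : ℕ) : ℤ) := by positivity
    have h4 : (0 : ℤ) ≤ ((v.2 : ℕ) : ℤ) := by positivity
    have h5 : (s : ℤ) * s < p := by exact_mod_cast hs3
    nlinarith
  · have h1 : ((u.1 : ℕ) : ZMod p) - r * ((u.2 : ℕ) : ZMod p)
        = ((v.1 : ℕ) : ZMod p) - r * ((v.2 : ℕ) : ZMod p) := hf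
    push_cast
    linear_combination h1

theorem five_case (a b : ℤ) (p : ℤ) (h : a ^ 2 + 6 * b ^ 2 = 5 * p) (h5 : (5 : ℤ) ∣ a - 2 * b) :
    ∃ x y : ℤ, p = 2 * x ^ 2 + 3 * y ^ 2 := by
  obtain ⟨y, hy⟩ := h5
  refine ⟨y + b, y, ?_⟩
  have ha : a = 2 * b + 5 * y := by linarith
  rw [ha] at h
  nlinarith

theorem thue (p : ℕ) [hp : Fact p.Prime] (h : IsSquare (-6 : ZMod p)) :
    ∃ x y : ℤ, (p : ℤ) = x ^ 2 + 6 * y ^ 2 ∨ (p : ℤ) = 2 * x ^ 2 + 3 * y ^ 2 := by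
  obtain ⟨r, hr⟩ := h
  obtain ⟨a, b, hab, ha, hb, hz⟩ := thue_lemma p r
  have hdvd : (p : ℤ) ∣ a ^ 2 + 6 * b ^ 2 := by
    rw [← ZMod.intCast_zmod_eq_zero_iff_dvd]
    push_cast
    rw [hz]
    linear_combination (-(b : ZMod p) ^ 2) * hr
  obtain ⟨k, hk⟩ := hdvd
  have hp0 : (0 : ℤ) < p := by exact_mod_cast hp.out.pos
  have hpos : 0 < a ^ 2 + 6 * b ^ 2 := by
    rcases hab with h0 | h0
    · have := sq_pos_of_ne_zero h0 (R := ℤ) 
      positivity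
    · have := sq_pos_of_ne_zero h0 (R := ℤ)
      positivity
  have hk0 : 0 < k := by
    by_contra hcon
    push Not at hcon
    nlinarith
  have hk7 : k < 7 := by
    by_contra hcon
    push Not at hcon
    nlinarith
  have hk' : a ^ 2 + 6 * b ^ 2 = k * p := by rw [hk]; ring
  interval_cases k
  · exact ⟨a, b, Or.inl (by linarith)⟩
  · -- k = 2
    have h2 : (2 : ℤ) ∣ a := by
      have : (2 : ℤ) ∣ a ^ 2 := ⟨p - 3 * b ^ 2, by linarith⟩
      exact Int.prime_two.dvd_of_dvd_pow this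
    obtain ⟨c, rfl⟩ := h2
    exact ⟨c, b, Or.inr (by nlinarith)⟩
  · have h2 : (3 : ℤ) ∣ a := by
      have : (3 : ℤ) ∣ a ^ 2 := ⟨p - 2 * b ^ 2, by linarith⟩
      exact Int.prime_three.dvd_of_dvd_pow this
    obtain ⟨c, rfl⟩ := h2
    exact ⟨b, c, Or.inr (by nlinarith)⟩
  · have h2 : (2 : ℤ) ∣ a := by
      have : (2 : ℤ) ∣ a ^ 2 := ⟨2 * p - 3 * b ^ 2, by linarith⟩
      exact Int.prime_two.dvd_of_dvd_pow this
    obtain ⟨c, rfl⟩ := h2
    have h2b : (2 : ℤ) ∣ b := by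
      have h4 : (2 : ℤ) ∣ 3 * b ^ 2 := ⟨p - c ^ 2, by nlinarith⟩
      have h5 : (2 : ℤ) ∣ b ^ 2 := by omega
      exact Int.prime_two.dvd_of_dvd_pow h5
    obtain ⟨d, rfl⟩ := h2b
    exact ⟨c, d, Or.inl (by nlinarith)⟩
  · -- k = 5
    have h5 : (5 : ℤ) ∣ (a - 2 * b) * (a + 2 * b) := ⟨p - 2 * b ^ 2, by nlinarith⟩
    have hp5 : Prime (5 : ℤ) := by norm_num
    rcases hp5.dvd_or_dvd h5 with h6 | h6
    · obtain ⟨x, y, hxy⟩ := five_case a b p hk' h6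
      exact ⟨x, y, Or.inr hxy⟩
    · obtain ⟨x, y, hxy⟩ := five_case a (-b) p (by rw [← hk']; ring) (by simpa using h6)
      exact ⟨x, y, Or.inr hxy⟩
  · have h2 : (2 : ℤ) ∣ a := by
      have : (2 : ℤ) ∣ a ^ 2 := ⟨3 * p - 3 * b ^ 2, by linarith⟩
      exact Int.prime_two.dvd_of_dvd_pow this
    have h3' : (3 : ℤ) ∣ a := by
      have : (3 : ℤ) ∣ a ^ 2 := ⟨2 * p - 2 * b ^ 2, by linarith⟩
      exact Int.prime_three.dvd_of_dvd_pow this
    have h6 : (6 : ℤ) ∣ a := by omega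
    obtain ⟨c, rfl⟩ := h6
    exact ⟨b, c, Or.inl (by nlinarith)⟩

/-- The residues modulo 24 for which `-6` is a square. -/
theorem isSquare_neg_six_iff (p : ℕ) [hp : Fact p.Prime] (h3 : 3 < p) :
    IsSquare (-6 : ZMod p) ↔ (p % 24 = 1 ∨ p % 24 = 5 ∨ p % 24 = 7 ∨ p % 24 = 11) := by
  have hodd : Odd p := hp.out.odd_of_ne_two (by omega)
  have hne : ((-6 : ℤ) : ZMod p) ≠ 0 := by
    intro h0
    rw [ZMod.intCast_zmod_eq_zero_iff_dvd] at h0
    have h1 : (p : ℤ) ∣ 6 := by simpa using h0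
    have h2 : p ∣ 6 := by exact_mod_cast h1
    have h4 : p ≤ 6 := Nat.le_of_dvd (by norm_num) h2
    interval_cases p
    · revert h2; decide
    · revert h2; decide
    · exact absurd hp.out (by norm_num)
  have h2 : p % 2 = 1 := Nat.odd_iff.mp hodd
  have h3' : p % 3 ≠ 0 := by
    intro h0
    have h5 : 3 ∣ p := Nat.dvd_of_mod_eq_zero h0
    have h6 := (Nat.prime_dvd_prime_iff_eq Nat.prime_three hp.out).mp h5
    omega
  have hJ : jacobiSym (-6) p = jacobiSym (-6) (p % 24) := by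
    have := jacobiSym.mod_right (-6) hodd
    simpa using this
  have hL : jacobiSym (-6) p = legendreSym p (-6) := (jacobiSym.legendreSym.to_jacobiSym p (-6)).symm
  have hiff : IsSquare (-6 : ZMod p) ↔ jacobiSym (-6) (p % 24) = 1 := by
    rw [← hJ, hL, legendreSym.eq_one_iff p hne]
    simp
  rw [hiff]
  have hr : p % 24 = 1 ∨ p % 24 = 5 ∨ p % 24 = 7 ∨ p % 24 = 11 ∨ p % 24 = 13 ∨ p % 24 = 17 ∨
      p % 24 = 19 ∨ p % 24 = 23 := by omega
  rcases hr with h | h | h | h | h | h | h | h <;> rw [h] <;> norm_num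

theorem mod_three_of_first (p : ℕ) (x y : ℤ) (h : (p : ℤ) = x ^ 2 + 6 * y ^ 2) : p % 3 ≠ 2 := by
  intro h2
  have h3 : (p : ℤ) % 3 = 2 := by exact_mod_cast h2
  have h4 : x ^ 2 % 3 = 2 := by omega
  have h6 : x = 3 * (x / 3) ∨ x = 3 * (x / 3) + 1 ∨ x = 3 * (x / 3) + 2 := by omega
  generalize x / 3 = z at h6
  rcases h6 with h6 | h6 | h6
  · have : x ^ 2 = 3 * (3 * z ^ 2) := by rw [h6]; ring
    omega
  · have : x ^ 2 = 3 * (3 * z ^ 2 + 2 * z) + 1 := by rw [h6]; ring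
    omega
  · have : x ^ 2 = 3 * (3 * z ^ 2 + 4 * z + 1) + 1 := by rw [h6]; ring
    omega

theorem mod_three_of_second (p : ℕ) (x y : ℤ) (h : (p : ℤ) = 2 * x ^ 2 + 3 * y ^ 2) :
    p % 3 ≠ 1 := by
  intro h2
  have h3 : (p : ℤ) % 3 = 1 := by exact_mod_cast h2
  have h4 : x ^ 2 % 3 = 2 := by omega
  have h6 : x = 3 * (x / 3) ∨ x = 3 * (x / 3) + 1 ∨ x = 3 * (x / 3) + 2 := by omega
  generalize x / 3 = z at h6
  rcases h6 with h6 | h6 | h6
  · have : x ^ 2 = 3 * (3 * z ^ 2) := by rw [h6]; ring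
    omega
  · have : x ^ 2 = 3 * (3 * z ^ 2 + 2 * z) + 1 := by rw [h6]; ring
    omega
  · have : x ^ 2 = 3 * (3 * z ^ 2 + 4 * z + 1) + 1 := by rw [h6]; ring
    omega

/-- `p = 1, 7 mod 24`: `p = x^2 + 6 y^2`. -/
theorem first_form (p : ℕ) [hp : Fact p.Prime] (h : p % 24 = 1 ∨ p % 24 = 7) :
    ∃ x y : ℤ, (p : ℤ) = x ^ 2 + 6 * y ^ 2 := by
  have h2 := hp.out.two_le
  have h3 : 3 < p := by omega
  obtain ⟨x, y, hxy | hxy⟩ := thue p ((isSquare_neg_six_iff p h3).mpr (by omega))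
  · exact ⟨x, y, hxy⟩
  · exact absurd (by omega) (mod_three_of_second p x y hxy)

/-- `p = 5, 11 mod 24`: `p = 2 x^2 + 3 y^2`. -/
theorem second_form (p : ℕ) [hp : Fact p.Prime] (h : p % 24 = 5 ∨ p % 24 = 11) :
    ∃ x y : ℤ, (p : ℤ) = 2 * x ^ 2 + 3 * y ^ 2 := by
  have h2 := hp.out.two_le
  have h3 : 3 < p := by omega
  obtain ⟨x, y, hxy | hxy⟩ := thue p ((isSquare_neg_six_iff p h3).mpr (by omega))
  · exact absurd (by omega) (mod_three_of_first p x y hxy)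
  · exact ⟨x, y, hxy⟩

theorem eq_zero_of_dvd (p d : ℤ) (hp : 0 < p) (hd : p ∣ d) (h : 6 * d ^ 2 ≤ p ^ 2) : d = 0 := by
  obtain ⟨e, rfl⟩ := hd
  by_contra hne
  have he : e ≠ 0 := by
    rintro rfl
    simp at hne
  have he2 : 1 ≤ e ^ 2 := by
    have := sq_pos_of_ne_zero he
    omega
  have hp2 : 0 < p ^ 2 := by positivity
  nlinarith

/-- Uniqueness in `p = x^2 + 6 y^2`. -/
theorem first_unique (p : ℕ) [hp : Fact p.Prime] (x y u v : ℤ)
    (h : (p : ℤ) = x ^ 2 + 6 * y ^ 2) (h' : (p : ℤ) = u ^ 2 + 6 * v ^ 2) :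
    x ^ 2 = u ^ 2 ∧ y ^ 2 = v ^ 2 := by
  have hp0 : (0 : ℤ) < p := by exact_mod_cast hp.out.pos
  have hpi : Prime (p : ℤ) := Nat.prime_iff_prime_int.mp hp.out
  have hprod : (x * v - u * y) * (x * v + u * y) = p * (v ^ 2 - y ^ 2) := by
    have h1 : x ^ 2 = p - 6 * y ^ 2 := by linarith
    have h2 : u ^ 2 = p - 6 * v ^ 2 := by linarith
    linear_combination v ^ 2 * h1 - y ^ 2 * h2
  have hs1 : (p : ℤ) ^ 2 = (x * u + 6 * y * v) ^ 2 + 6 * (x * v - u * y) ^ 2 := by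
    have : (p : ℤ) ^ 2 = (x ^ 2 + 6 * y ^ 2) * (u ^ 2 + 6 * v ^ 2) := by rw [← h, ← h']; ring
    rw [this]; ring
  have hs2 : (p : ℤ) ^ 2 = (x * u - 6 * y * v) ^ 2 + 6 * (x * v + u * y) ^ 2 := by
    have : (p : ℤ) ^ 2 = (x ^ 2 + 6 * y ^ 2) * (u ^ 2 + 6 * v ^ 2) := by rw [← h, ← h']; ring
    rw [this]; ring
  have hz : (x * v - u * y) * (x * v + u * y) = 0 := by
    have hd : (p : ℤ) ∣ (x * v - u * y) * (x * v + u * y) := ⟨_, hprod⟩
    rcases hpi.dvd_or_dvd hd with h1 | h1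
    · have := eq_zero_of_dvd p _ hp0 h1 (by nlinarith [sq_nonneg (x * u + 6 * y * v)])
      rw [this, zero_mul]
    · have := eq_zero_of_dvd p _ hp0 h1 (by nlinarith [sq_nonneg (x * u - 6 * y * v)])
      rw [this, mul_zero]
  have hyv : y ^ 2 = v ^ 2 := by
    rw [hz] at hprod
    have := mul_eq_zero.mp hprod.symm
    rcases this with h1 | h1
    · exact absurd h1 hp0.ne'
    · linarith
  exact ⟨by linarith, hyv⟩

/-- Uniqueness in `p = 2 x^2 + 3 y^2`. -/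
theorem second_unique (p : ℕ) [hp : Fact p.Prime] (hp2 : p ≠ 2) (x y u v : ℤ)
    (h : (p : ℤ) = 2 * x ^ 2 + 3 * y ^ 2) (h' : (p : ℤ) = 2 * u ^ 2 + 3 * v ^ 2) :
    x ^ 2 = u ^ 2 ∧ y ^ 2 = v ^ 2 := by
  have hp0 : (0 : ℤ) < p := by exact_mod_cast hp.out.pos
  have hpi : Prime (p : ℤ) := Nat.prime_iff_prime_int.mp hp.out
  have hprod : 2 * ((x * v - u * y) * (x * v + u * y)) = p * (v ^ 2 - y ^ 2) := by
    have h1 : 2 * x ^ 2 = p - 3 * y ^ 2 := by linarith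
    have h2 : 2 * u ^ 2 = p - 3 * v ^ 2 := by linarith
    linear_combination v ^ 2 * h1 - y ^ 2 * h2
  have hs1 : (p : ℤ) ^ 2 = (2 * x * u + 3 * y * v) ^ 2 + 6 * (x * v - u * y) ^ 2 := by
    have : (p : ℤ) ^ 2 = (2 * x ^ 2 + 3 * y ^ 2) * (2 * u ^ 2 + 3 * v ^ 2) := by
      rw [← h, ← h']; ring
    rw [this]; ring
  have hs2 : (p : ℤ) ^ 2 = (2 * x * u - 3 * y * v) ^ 2 + 6 * (x * v + u * y) ^ 2 := by
    have : (p : ℤ) ^ 2 = (2 * x ^ 2 + 3 * y ^ 2) * (2 * u ^ 2 + 3 * v ^ 2) := by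
      rw [← h, ← h']; ring
    rw [this]; ring
  have hz : (x * v - u * y) * (x * v + u * y) = 0 := by
    have hd : (p : ℤ) ∣ 2 * ((x * v - u * y) * (x * v + u * y)) := ⟨_, hprod⟩
    rcases hpi.dvd_or_dvd hd with h0 | h0
    · exfalso
      have h1 : p ∣ 2 := by exact_mod_cast h0
      exact hp2 ((Nat.prime_dvd_prime_iff_eq hp.out Nat.prime_two).mp h1)
    rcases hpi.dvd_or_dvd h0 with h1 | h1
    · have := eq_zero_of_dvd p _ hp0 h1 (by nlinarith [sq_nonneg (2 * x * u + 3 * y * v)])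
      rw [this, zero_mul]
    · have := eq_zero_of_dvd p _ hp0 h1 (by nlinarith [sq_nonneg (2 * x * u - 3 * y * v)])
      rw [this, mul_zero]
  have hyv : y ^ 2 = v ^ 2 := by
    rw [hz, mul_zero] at hprod
    have := mul_eq_zero.mp hprod.symm
    rcases this with h1 | h1
    · exact absurd h1 hp0.ne'
    · linarith
  exact ⟨by linarith, hyv⟩

end Pool.Agent.H24.Sun
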