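import Mathlib
import Pool.Agent.H37.Sun.Cases
import Pool.Agent.H37.Sun.Witt
import Pool.Agent.H24.Sun.Thue

/-! Packaging of part (a): from congruences over the Witt vectors to the rational sums. -/

namespace Pool.Agent.H24.Sun

open Polynomial Finset Pool.Agent.H37.Sun

section
variable {R : Type*} [CommRing R] [IsDomain R] [CharZero R] {k : Type*} [Field k]
  (p : ℕ) [Fact p.Prime] [CharP k p] (π : R →+* k)

include π in
/-- From the ring to the integers. -/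
theorem int_final' (n e : ℕ) (κ : ℤ) (r : R) (hκ : (κ : R) * r ^ e = 1) (B0 C0 χ E : ℤ)
    (h : (p : R) ^ 2 ∣ (χ : R) * ∑ m ∈ range (n + 1), (v n m : R) *
      (r ^ (e * m) * T (e * m) (B0 : R) (C0 : R)) - 16 ^ n * (E : R)) :
    (p : ℤ) ^ 2 ∣ χ * ∑ m ∈ range (n + 1),
      (Nat.centralBinom m : ℤ) ^ 2 * (16 * κ) ^ (n - m) * T (e * m) B0 C0 - (16 * κ) ^ n * E := by
  apply int_dvd (R := R) p π
  have h1 := h.mul_left ((κ : R) ^ n)
  have e1 : (κ : R) ^ n * ∑ m ∈ range (n + 1), (v n m : R) *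
      (r ^ (e * m) * T (e * m) (B0 : R) (C0 : R))
      = ((∑ m ∈ range (n + 1),
        (Nat.centralBinom m : ℤ) ^ 2 * (16 * κ) ^ (n - m) * T (e * m) B0 C0 : ℤ) : R) := by
    rw [mul_sum]
    push_cast
    refine sum_congr rfl fun m hm => ?_
    have hm' : m ≤ n := by have := mem_range.mp hm; omega
    rw [T_int]
    have e2 : (κ : R) ^ n * r ^ (e * m) = (κ : R) ^ (n - m) := by
      have : (κ : R) ^ n = (κ : R) ^ (n - m) * (κ : R) ^ m := by
        rw [← pow_add]; congr 1; omega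
      rw [this, pow_mul, mul_assoc, ← mul_pow, hκ, one_pow, mul_one]
    have e3 : (v n m : R) = (Nat.centralBinom m : R) ^ 2 * 16 ^ (n - m) := by
      unfold v
      push_cast
      ring
    rw [e3, mul_pow, ← e2]
    ring
  have e4 : (κ : R) ^ n * ((χ : R) * ∑ m ∈ range (n + 1), (v n m : R) *
      (r ^ (e * m) * T (e * m) (B0 : R) (C0 : R)) - 16 ^ n * (E : R))
      = ((χ * ∑ m ∈ range (n + 1),
      (Nat.centralBinom m : ℤ) ^ 2 * (16 * κ) ^ (n - m) * T (e * m) B0 C0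
        - (16 * κ) ^ n * E : ℤ) : R) := by
    rw [mul_sub, ← mul_assoc, mul_comm ((κ : R) ^ n) (χ : R), mul_assoc, e1, Int.cast_sub,
      Int.cast_mul, Int.cast_mul, Int.cast_pow, Int.cast_mul, mul_pow]
    push_cast
    ring
  rw [e4] at h1
  exact h1

end

/-- From the short integral sum to the rational sum. -/
theorem rat_final' (p n : ℕ) (hp : p.Prime) (hn : p = 2 * n + 1) (τ : ℕ → ℤ) (M : ℤ)
    (Mq : ℚ) (hMq' : Mq = (M : ℚ)) (hM0 : M ≠ 0) (hM : IsCoprime (p : ℤ) M) (χ E : ℤ)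
    (h : (p : ℤ) ^ 2 ∣ χ * ∑ m ∈ range (n + 1), (Nat.centralBinom m : ℤ) ^ 2 * M ^ (n - m) * τ m
      - M ^ n * E) :
    (p : ℤ) ^ 2 ∣ ((χ : ℚ) * ∑ k ∈ range p, ((2 * k).choose k : ℚ) ^ 2 * (τ k : ℚ) / Mq ^ k
      - (E : ℚ)).num := by
  rw [hMq']
  set N : ℤ := ∑ k ∈ range p, (Nat.centralBinom k : ℤ) ^ 2 * M ^ (p - 1 - k) * τ k with hN
  have hNdvd : (p : ℤ) ^ 2 ∣ χ * N - M ^ (p - 1) * E := by
    have hsplit : N = M ^ n * (∑ m ∈ range (n + 1), (Nat.centralBinom m : ℤ) ^ 2 * M ^ (n - m) * τ m)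
        + ∑ k ∈ Ico (n + 1) p, (Nat.centralBinom k : ℤ) ^ 2 * M ^ (p - 1 - k) * τ k := by
      rw [hN, ← sum_range_add_sum_Ico _ (show n + 1 ≤ p by omega), mul_sum]
      congr 1
      refine sum_congr rfl fun m hm => ?_
      have hm' : m ≤ n := by have := mem_range.mp hm; omega
      have : M ^ (p - 1 - m) = M ^ n * M ^ (n - m) := by
        rw [← pow_add]; congr 1; omega
      rw [this]
      ring
    have hMM : M ^ (p - 1) = M ^ n * M ^ n := by
      rw [← pow_add]; congr 1; omega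
    have hrest : (p : ℤ) ^ 2 ∣ ∑ k ∈ Ico (n + 1) p,
        (Nat.centralBinom k : ℤ) ^ 2 * M ^ (p - 1 - k) * τ k := by
      refine dvd_sum fun k hk => ?_
      have hk' := mem_Ico.mp hk
      have hd : p ∣ Nat.centralBinom k := by
        rw [Nat.centralBinom, two_mul]
        exact hp.dvd_choose_add hk'.2 hk'.2 (by omega)
      have hd2 : (p : ℤ) ^ 2 ∣ (Nat.centralBinom k : ℤ) ^ 2 :=
        pow_dvd_pow_of_dvd (by exact_mod_cast hd) 2
      exact (hd2.mul_right _).mul_right _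
    rw [hsplit, hMM]
    have h2 := dvd_add (h.mul_left (M ^ n)) (hrest.mul_left χ)
    have e5 : ∀ s r : ℤ, χ * (M ^ n * s + r) - M ^ n * M ^ n * E
        = M ^ n * (χ * s - M ^ n * E) + χ * r := fun s r => by ring
    rw [e5]
    exact h2
  set S : ℚ := ∑ k ∈ range p, ((2 * k).choose k : ℚ) ^ 2 * (τ k : ℚ) / (M : ℚ) ^ k with hS
  have hMq : (M : ℚ) ≠ 0 := by exact_mod_cast hM0
  have hSN : S * (M : ℚ) ^ (p - 1) = (N : ℚ) := by
    rw [hS, hN, sum_mul]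
    push_cast
    refine sum_congr rfl fun k hk => ?_
    have hk' : k ≤ p - 1 := by have := mem_range.mp hk; omega
    have : (M : ℚ) ^ (p - 1) = (M : ℚ) ^ (p - 1 - k) * (M : ℚ) ^ k := by
      rw [← pow_add]; congr 1; omega
    rw [this, Nat.centralBinom]
    field_simp
  obtain ⟨Q, hQ⟩ : ∃ Q : ℚ, Q = (χ : ℚ) * S - (E : ℚ) := ⟨_, rfl⟩
  rw [← hQ]
  have hnum : Q.num * M ^ (p - 1) = (χ * N - M ^ (p - 1) * E) * Q.den := by
    have h1 : (Q.num : ℚ) = Q * Q.den := by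
      rw [Rat.mul_den_eq_num]
    have : ((Q.num * M ^ (p - 1) : ℤ) : ℚ) = (((χ * N - M ^ (p - 1) * E) * Q.den : ℤ) : ℚ) := by
      push_cast
      rw [h1, ← hSN, hQ]
      ring
    exact_mod_cast this
  have hd : (p : ℤ) ^ 2 ∣ Q.num * M ^ (p - 1) := by
    rw [hnum]
    exact hNdvd.mul_right _
  exact (IsCoprime.pow hM).dvd_of_dvd_mul_right hd

/-- Differences. -/
theorem num_sub (p : ℕ) (a b : ℚ) (ha : (p : ℤ) ^ 2 ∣ a.num)
    (hb : (p : ℤ) ^ 2 ∣ b.num) : (p : ℤ) ^ 2 ∣ (a - b).num := by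
  have cop : ∀ a : ℚ, (p : ℤ) ^ 2 ∣ a.num → IsCoprime ((p : ℤ) ^ 2) (a.den : ℤ) := by
    intro a ha
    have h1 : IsCoprime a.num (a.den : ℤ) := by
      rw [Int.isCoprime_iff_nat_coprime, Int.natAbs_natCast]
      exact a.reduced
    exact h1.of_isCoprime_of_dvd_left ha
  have e1 : (a - b).num * (a.den * b.den) = (a.num * b.den - b.num * a.den) * (a - b).den := by
    have h1 : ((a - b).num : ℚ) = (a - b) * (a - b).den := by rw [Rat.mul_den_eq_num]
    have h2 : (a.num : ℚ) = a * a.den := by rw [Rat.mul_den_eq_num]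
    have h3 : (b.num : ℚ) = b * b.den := by rw [Rat.mul_den_eq_num]
    have : (((a - b).num * (a.den * b.den) : ℤ) : ℚ)
        = (((a.num * b.den - b.num * a.den) * (a - b).den : ℤ) : ℚ) := by
      push_cast
      rw [h1, h2, h3]
      ring
    exact_mod_cast this
  have hd : (p : ℤ) ^ 2 ∣ (a - b).num * (a.den * b.den) := by
    rw [e1]
    exact (dvd_sub (ha.mul_right _) (hb.mul_right _)).mul_right _
  exact ((cop a ha).mul_right (cop b hb)).dvd_of_dvd_mul_right hd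

theorem num_sub' (p : ℕ) (a b e : ℚ) (ha : (p : ℤ) ^ 2 ∣ (a - e).num)
    (hb : (p : ℤ) ^ 2 ∣ (b - e).num) : (p : ℤ) ^ 2 ∣ (a - b).num := by
  have := num_sub p _ _ ha hb
  rwa [show a - e - (b - e) = a - b by ring] at this

theorem num_mul (p : ℕ) (a : ℚ) (χ : ℤ) (ha : (p : ℤ) ^ 2 ∣ a.num) :
    (p : ℤ) ^ 2 ∣ ((χ : ℚ) * a).num := by
  have h1 : IsCoprime ((p : ℤ) ^ 2) (a.den : ℤ) := by
    have h1 : IsCoprime a.num (a.den : ℤ) := by
      rw [Int.isCoprime_iff_nat_coprime, Int.natAbs_natCast]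
      exact a.reduced
    exact h1.of_isCoprime_of_dvd_left ha
  have e1 : ((χ : ℚ) * a).num * a.den = χ * a.num * ((χ : ℚ) * a).den := by
    have h1 : (((χ : ℚ) * a).num : ℚ) = ((χ : ℚ) * a) * ((χ : ℚ) * a).den := by
      rw [Rat.mul_den_eq_num]
    have h2 : (a.num : ℚ) = a * a.den := by rw [Rat.mul_den_eq_num]
    have : ((((χ : ℚ) * a).num * a.den : ℤ) : ℚ)
        = ((χ * a.num * ((χ : ℚ) * a).den : ℤ) : ℚ) := by
      push_cast
      rw [h1, h2]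
      ring
    exact_mod_cast this
  apply h1.dvd_of_dvd_mul_right
  rw [e1]
  exact (ha.mul_left _).mul_right _

/-! ### The sums -/

/-- The generalised central trinomial coefficient `T_n(b,c)`, the coefficient of `x^n` in
`(x^2 + b x + c)^n`, for integers `b`, `c`. -/
noncomputable def Tc (n : ℕ) (b c : ℤ) : ℤ := ((X ^ 2 + C b * X + C c : ℤ[X]) ^ n).coeff n

/-- `S_1(p)`. -/
noncomputable def S1 (p : ℕ) : ℚ :=
  ∑ k ∈ range p, ((2 * k).choose k : ℚ) ^ 2 * (Tc k 10 1 : ℚ) / (-64) ^ k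

/-- `S_2(p)`. -/
noncomputable def S2 (p : ℕ) : ℚ :=
  ∑ k ∈ range p, ((2 * k).choose k : ℚ) ^ 2 * (Tc (2 * k) 6 1 : ℚ) / 256 ^ k

/-- `S_3(p)`. -/
noncomputable def S3 (p : ℕ) : ℚ :=
  ∑ k ∈ range p, ((2 * k).choose k : ℚ) ^ 2 * (Tc (2 * k) 6 1 : ℚ) / 1024 ^ k

/-- The three congruences over a ring, for the common value `E`. -/
def Ord3 (R : Type*) [CommRing R] (p n : ℕ) (h : R) (χ E : ℤ) : Prop :=
  (p : R) ^ 2 ∣ ∑ m ∈ range (n + 1), (v n m : R) *
      ((-h ^ 2) ^ (1 * m) * T (1 * m) ((10 : ℤ) : R) ((1 : ℤ) : R)) - 16 ^ n * (E : R)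
  ∧ (p : R) ^ 2 ∣ (χ : R) * ∑ m ∈ range (n + 1), (v n m : R) *
      ((h ^ 2) ^ (2 * m) * T (2 * m) ((6 : ℤ) : R) ((1 : ℤ) : R)) - 16 ^ n * (E : R)
  ∧ (p : R) ^ 2 ∣ ∑ m ∈ range (n + 1), (v n m : R) *
      ((h ^ 3) ^ (2 * m) * T (2 * m) ((6 : ℤ) : R) ((1 : ℤ) : R)) - 16 ^ n * (E : R)

section
variable {R : Type*} [CommRing R] [IsDomain R] [CharZero R] {k : Type*} [Field k]
  (p : ℕ) [Fact p.Prime] [CharP k p] (π : R →+* k)

include π in
theorem ord_abs (n : ℕ) (hn : p = 2 * n + 1) (h3 : 3 < p) (h : R) (hh : 2 * h = 1) (χ E : ℤ)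
    (H : Ord3 R p n h χ E) :
    (p : ℤ) ^ 2 ∣ (S1 p - (E : ℚ)).num ∧
    (p : ℤ) ^ 2 ∣ ((χ : ℚ) * S2 p - (E : ℚ)).num ∧
    (p : ℤ) ^ 2 ∣ (S3 p - (E : ℚ)).num := by
  obtain ⟨c1, c2, c3⟩ := H
  have hp : p.Prime := Fact.out
  have hp2 : IsCoprime (p : ℤ) 2 := by
    have : Nat.Coprime p 2 := (Nat.Coprime.symm ((Nat.coprime_primes Nat.prime_two hp).mpr (by omega)))
    exact_mod_cast Nat.isCoprime_iff_coprime.mpr this
  have i1 := int_final' p π n 1 (-4)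
    (-h ^ 2) (by push_cast; linear_combination (2 * h + 1) * hh) 10 1 1 E
    (by simpa only [Int.cast_one, one_mul] using c1)
  have i2 := int_final' p π n 2 16
    (h ^ 2) (by push_cast; linear_combination (8 * h ^ 3 + 4 * h ^ 2 + 2 * h + 1) * hh) 6 1
    χ E c2
  have i3 := int_final' p π n 2 64
    (h ^ 3) (by
      push_cast
      linear_combination (32 * h ^ 5 + 16 * h ^ 4 + 8 * h ^ 3 + 4 * h ^ 2 + 2 * h + 1) * hh) 6 1 1 E
    (by simpa only [Int.cast_one, one_mul] using c3)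
  refine ⟨?_, ?_, ?_⟩
  · rw [show (16 * (-4) : ℤ) = -64 by norm_num] at i1
    simp only [one_mul] at i1
    have := rat_final' p n hp hn (fun k => Tc k 10 1) (-64) (-64) (by norm_num) (by norm_num)
      (by
        rw [show (-64 : ℤ) = -(2 ^ 6) by norm_num]
        exact (hp2.pow_right).neg_right) 1 E (by rw [one_mul]; exact i1)
    rw [Int.cast_one, one_mul] at this
    exact this
  · rw [show (16 * 16 : ℤ) = 256 by norm_num] at i2
    exact rat_final' p n hp hn (fun k => Tc (2 * k) 6 1) 256 256 (by norm_num) (by norm_num)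
      (by
        rw [show (256 : ℤ) = 2 ^ 8 by norm_num]
        exact hp2.pow_right) _ E i2
  · rw [show (16 * 64 : ℤ) = 1024 by norm_num] at i3
    have := rat_final' p n hp hn (fun k => Tc (2 * k) 6 1) 1024 1024 (by norm_num) (by norm_num)
      (by
        rw [show (1024 : ℤ) = 2 ^ 10 by norm_num]
        exact hp2.pow_right) 1 E i3
    rw [Int.cast_one, one_mul] at this
    exact this

end

/-- The Witt vectors of the algebraic closure of `ℤ/p`. -/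
abbrev OO (p : ℕ) [Fact p.Prime] := WittVector p (AlgebraicClosure (ZMod p))

/-- The congruences over the Witt vectors in the ordinary case. -/
def OrdHyp : Prop := ∀ (p : ℕ) [Fact p.Prime] (n : ℕ), p = 2 * n + 1 → 3 < p →
  ∀ h : OO p, 2 * h = 1 → ∀ x y E : ℤ,
  (((p : ℤ) = x ^ 2 + 6 * y ^ 2 ∧ E = 4 * x ^ 2 - 2 * p)
    ∨ ((p : ℤ) = 2 * x ^ 2 + 3 * y ^ 2 ∧ E = 8 * x ^ 2 - 2 * p)) →
  Ord3 (OO p) p n h (jacobiSym p 3) E

theorem exists_half (p : ℕ) [Fact p.Prime] (h3 : 3 < p) : ∃ h : OO p, 2 * h = 1 := by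
  have : CharP (AlgebraicClosure (ZMod p)) p := kk_charP p
  have h2u : IsUnit (2 : OO p) := by
    apply isUnit_of
    rw [map_ofNat]
    have := cast_ne (k := AlgebraicClosure (ZMod p)) p 2 (by norm_num) (by omega)
    exact_mod_cast this
  exact h2u.exists_right_inv

/-- The ordinary case of part (a). -/
theorem ord_case (hord : OrdHyp) (p : ℕ) (hp : p.Prime) (h3 : 3 < p) (x y E : ℤ)
    (hE : ((p : ℤ) = x ^ 2 + 6 * y ^ 2 ∧ E = 4 * x ^ 2 - 2 * p)
      ∨ ((p : ℤ) = 2 * x ^ 2 + 3 * y ^ 2 ∧ E = 8 * x ^ 2 - 2 * p)) :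
    (p : ℤ) ^ 2 ∣ (S1 p - (E : ℚ)).num ∧
    (p : ℤ) ^ 2 ∣ (((jacobiSym p 3 : ℤ) : ℚ) * S2 p - (E : ℚ)).num ∧
    (p : ℤ) ^ 2 ∣ (S3 p - (E : ℚ)).num := by
  have : Fact p.Prime := ⟨hp⟩
  obtain ⟨n, hn⟩ : ∃ n, p = 2 * n + 1 := hp.odd_of_ne_two (by omega)
  have : CharZero (OO p) := charZero_OO p
  have : CharP (AlgebraicClosure (ZMod p)) p := kk_charP p
  obtain ⟨h, hh⟩ := exists_half p h3
  exact ord_abs p (WittVector.constantCoeff : OO p →+* AlgebraicClosure (ZMod p)) n hn h3 h hh _ E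
    (hord p n hn h3 h hh x y E hE)

/-- The inert case, as in `InertThirdBullet`. -/
theorem inert_case : ∀ p : ℕ, p.Prime → 3 < p → jacobiSym (-6) p = -1 →
    (p : ℤ) ^ 2 ∣ (S1 p).num ∧ (p : ℤ) ^ 2 ∣ (S2 p).num ∧ (p : ℤ) ^ 2 ∣ (S3 p).num := by
  intro p hp h3 hj
  have : Fact p.Prime := ⟨hp⟩
  obtain ⟨n, hn⟩ : ∃ n, p = 2 * n + 1 := hp.odd_of_ne_two (by omega)
  have : CharZero (WittVector p (AlgebraicClosure (ZMod p))) := H37.Sun.charZero_OO p
  have : CharP (AlgebraicClosure (ZMod p)) p := H37.Sun.kk_charP p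
  have hcop : ∀ m : ℕ, 0 < m → m < p → ¬ p ∣ m := fun m h0 hm h =>
    absurd (Nat.le_of_dvd h0 h) (by omega)
  obtain ⟨s, hs⟩ := H37.Sun.exists_sqrt p 2 (by omega) (hcop 2 (by norm_num) (by omega))
  obtain ⟨t, ht⟩ := H37.Sun.exists_sqrt p 3 (by omega) (hcop 3 (by norm_num) (by omega))
  have hs' : s ^ 2 = 2 := by rw [hs]; norm_num
  have ht' : t ^ 2 = 3 := by rw [ht]; norm_num
  set π : WittVector p (AlgebraicClosure (ZMod p)) →+* AlgebraicClosure (ZMod p) :=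
    WittVector.constantCoeff with hπ
  have hsurj : Function.Surjective π := WittVector.constantCoeff_surjective p
  have hker : ∀ x, π x = 0 → (p : WittVector p (AlgebraicClosure (ZMod p))) ∣ x :=
    H37.Sun.ker_OO p
  obtain ⟨h, hh⟩ := exists_half p h3
  -- the Euler criterion
  have hne : (6 : AlgebraicClosure (ZMod p)) ^ n ≠ (-9) ^ n := by
    intro heq
    rw [← jacobiSym.legendreSym.to_jacobiSym] at hj
    have h1 := legendreSym.eq_pow p (-6)
    rw [hj] at h1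
    have hdiv : p / 2 = n := by omega
    rw [hdiv] at h1
    have h1' : (-1 : AlgebraicClosure (ZMod p)) = (-6) ^ n := by
      have := congrArg (algebraMap (ZMod p) (AlgebraicClosure (ZMod p))) h1
      rw [map_pow, map_intCast, map_intCast] at this
      simpa using this
    have hfermat : (3 : AlgebraicClosure (ZMod p)) ^ (2 * n) = 1 := by
      have h30 : (3 : ZMod p) ≠ 0 := by
        have := H37.Sun.cast_ne (k := ZMod p) p 3 (by norm_num) (by omega)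
        exact_mod_cast this
      have := ZMod.pow_card_sub_one_eq_one h30
      rw [show p - 1 = 2 * n by omega] at this
      have := congrArg (algebraMap (ZMod p) (AlgebraicClosure (ZMod p))) this
      rwa [map_pow, map_ofNat, map_one] at this
    have e1 : (-6 : AlgebraicClosure (ZMod p)) ^ n = (-1) ^ n * 6 ^ n := by
      rw [← mul_pow]; congr 1; ring
    have e2 : (-9 : AlgebraicClosure (ZMod p)) ^ n = (-1) ^ n * 3 ^ (2 * n) := by
      rw [pow_mul, ← mul_pow]; congr 1; ring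
    rw [e1, heq, e2, hfermat, mul_one, ← mul_pow] at h1'
    norm_num at h1'
    have n2 := H37.Sun.cast_ne (k := AlgebraicClosure (ZMod p)) p 2 (by norm_num) (by omega)
    apply n2
    push_cast
    linear_combination -h1'
  have c1 := H37.Sun.case1 p π hsurj hker n hn h3 s t h hs' ht' hh hne
  have c2 := H37.Sun.case2 p π hsurj hker n hn h3 s t h hs' ht' hh hne
  have c3 := H37.Sun.case3 p π hsurj hker n hn h3 s t h hs' ht' hh hne
  have hp2 : IsCoprime (p : ℤ) 2 := by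
    have : Nat.Coprime p 2 := (Nat.Coprime.symm ((Nat.coprime_primes Nat.prime_two hp).mpr (by omega)))
    exact_mod_cast Nat.isCoprime_iff_coprime.mpr this
  have key : ∀ (τ : ℕ → ℤ) (M : ℤ) (Mq : ℚ), Mq = (M : ℚ) → M ≠ 0 → IsCoprime (p : ℤ) M →
      ((p : ℤ) ^ 2 ∣ ∑ m ∈ range (n + 1), (Nat.centralBinom m : ℤ) ^ 2 * M ^ (n - m) * τ m) →
      (p : ℤ) ^ 2 ∣ (∑ k ∈ range p, ((2 * k).choose k : ℚ) ^ 2 * (τ k : ℚ) / Mq ^ k).num := by
    intro τ M Mq h1 h2 h3 h4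
    have := rat_final' p n hp hn τ M Mq h1 h2 h3 1 0 (by rw [one_mul, mul_zero, sub_zero]; exact h4)
    rwa [Int.cast_one, one_mul, Int.cast_zero, sub_zero] at this
  refine ⟨?_, ?_, ?_⟩
  · rw [show (16 * (-4) : ℤ) = -64 by norm_num] at c1
    simp only [one_mul] at c1
    exact key (fun k => Tc k 10 1) (-64) (-64) (by norm_num) (by norm_num)
      (by
        rw [show (-64 : ℤ) = -(2 ^ 6) by norm_num]
        exact (hp2.pow_right).neg_right) c1
  · rw [show (16 * 16 : ℤ) = 256 by norm_num] at c2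
    exact key (fun k => Tc (2 * k) 6 1) 256 256 (by norm_num) (by norm_num)
      (by
        rw [show (256 : ℤ) = 2 ^ 8 by norm_num]
        exact hp2.pow_right) c2
  · rw [show (16 * 64 : ℤ) = 1024 by norm_num] at c3
    exact key (fun k => Tc (2 * k) 6 1) 1024 1024 (by norm_num) (by norm_num)
      (by
        rw [show (1024 : ℤ) = 2 ^ 10 by norm_num]
        exact hp2.pow_right) c3

theorem jacobi_of_mod (p : ℕ) (hp : p.Prime) (h3 : 3 < p)
    (h : p % 24 = 13 ∨ p % 24 = 17 ∨ p % 24 = 19 ∨ p % 24 = 23) : jacobiSym (-6) p = -1 := by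
  have : Fact p.Prime := ⟨hp⟩
  rw [← jacobiSym.legendreSym.to_jacobiSym, legendreSym.eq_neg_one_iff]
  have := isSquare_neg_six_iff p h3
  push_cast
  rw [this]
  omega

/-- Part (a), given the congruences over the Witt vectors in the ordinary case. -/
theorem part_a (hord : OrdHyp) (p : ℕ) (hp : p.Prime) (h3 : 3 < p) :
    (p : ℤ) ^ 2 ∣ (S1 p - ((jacobiSym p 3 : ℤ) : ℚ) * S2 p).num ∧
    (p : ℤ) ^ 2 ∣ (S1 p - S3 p).num ∧
    (p % 24 = 1 ∨ p % 24 = 7 → (∃ x y : ℤ, (p : ℤ) = x ^ 2 + 6 * y ^ 2) ∧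
      ∀ x y : ℤ, (p : ℤ) = x ^ 2 + 6 * y ^ 2 →
        (p : ℤ) ^ 2 ∣ (S1 p - (4 * (x : ℚ) ^ 2 - 2 * p)).num) ∧
    (p % 24 = 5 ∨ p % 24 = 11 → (∃ x y : ℤ, (p : ℤ) = 2 * x ^ 2 + 3 * y ^ 2) ∧
      ∀ x y : ℤ, (p : ℤ) = 2 * x ^ 2 + 3 * y ^ 2 →
        (p : ℤ) ^ 2 ∣ (S1 p - (8 * (x : ℚ) ^ 2 - 2 * p)).num) ∧
    (p % 24 = 13 ∨ p % 24 = 17 ∨ p % 24 = 19 ∨ p % 24 = 23 → (p : ℤ) ^ 2 ∣ (S1 p).num) := by
  have hF : Fact p.Prime := ⟨hp⟩
  have hodd : p % 2 = 1 := Nat.odd_iff.mp (hp.odd_of_ne_two (by omega))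
  have h3' : p % 3 ≠ 0 := by
    intro h0
    have h1 : 3 ∣ p := Nat.dvd_of_mod_eq_zero h0
    have h2 : 3 = 1 ∨ 3 = p := (Nat.dvd_prime hp).mp h1
    omega
  have hcases : (p % 24 = 1 ∨ p % 24 = 7) ∨ (p % 24 = 5 ∨ p % 24 = 11)
      ∨ (p % 24 = 13 ∨ p % 24 = 17 ∨ p % 24 = 19 ∨ p % 24 = 23) := by
    omega
  refine ⟨?_, ?_, fun h => ⟨first_form p h, fun x y hxy => ?_⟩,
    fun h => ⟨second_form p h, fun x y hxy => ?_⟩, fun h => ?_⟩
  · rcases hcases with h | h | h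
    · obtain ⟨x, y, hxy⟩ := first_form p h
      obtain ⟨a1, a2, a3⟩ := ord_case hord p hp h3 x y _ (Or.inl ⟨hxy, rfl⟩)
      exact num_sub' p _ _ _ a1 a2
    · obtain ⟨x, y, hxy⟩ := second_form p h
      obtain ⟨a1, a2, a3⟩ := ord_case hord p hp h3 x y _ (Or.inr ⟨hxy, rfl⟩)
      exact num_sub' p _ _ _ a1 a2
    · obtain ⟨a1, a2, a3⟩ := inert_case p hp h3 (jacobi_of_mod p hp h3 h)
      exact num_sub p _ _ a1 (num_mul p _ _ a2)
  · rcases hcases with h | h | h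
    · obtain ⟨x, y, hxy⟩ := first_form p h
      obtain ⟨a1, a2, a3⟩ := ord_case hord p hp h3 x y _ (Or.inl ⟨hxy, rfl⟩)
      exact num_sub' p _ _ _ a1 a3
    · obtain ⟨x, y, hxy⟩ := second_form p h
      obtain ⟨a1, a2, a3⟩ := ord_case hord p hp h3 x y _ (Or.inr ⟨hxy, rfl⟩)
      exact num_sub' p _ _ _ a1 a3
    · obtain ⟨a1, a2, a3⟩ := inert_case p hp h3 (jacobi_of_mod p hp h3 h)
      exact num_sub p _ _ a1 a3
  · obtain ⟨a1, a2, a3⟩ := ord_case hord p hp h3 x y _ (Or.inl ⟨hxy, rfl⟩)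
    push_cast at a1
    exact a1
  · obtain ⟨a1, a2, a3⟩ := ord_case hord p hp h3 x y _ (Or.inr ⟨hxy, rfl⟩)
    push_cast at a1
    exact a1
  · exact (inert_case p hp h3 (jacobi_of_mod p hp h3 h)).1

end Pool.Agent.H24.Sun
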