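import Mathlib
import Pool.Agent.H99.Sun.Pf2

/-! The final algebra modulo `p^2` for the second kernel sum at a Heegner pair. -/

namespace Pool.Agent.H24.Sun

open Polynomial Finset Pool.Agent.H37.Sun Pool.Agent.H99.Sun

section core
variable {A : Type*} [CommRing A]

theorem sq_cancel {q s t e z : A} (hq : q ^ 2 = 0) (hs : s ^ 2 = t ^ 2) (hst : s = e * t + q * z)
    (he : e * e = 1) (h2 : IsUnit (2 : A)) (ht : IsUnit t) : s = e * t := by
  have h1 : 2 * (t * (q * z)) = 0 := by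
    have e1 : (e * t + q * z) ^ 2 = t ^ 2 := by rw [← hst]; exact hs
    linear_combination e * e1 - (e * t ^ 2 + 2 * t * q * z) * he - (e * z ^ 2) * hq
  have h3 : q * z = 0 := by
    apply ht.mul_left_cancel
    apply h2.mul_left_cancel
    rw [h1, mul_zero, mul_zero]
  rw [hst, h3, add_zero]

theorem core_rel {q x y xf yf a ct ct' H K c e z6 : A} (hq : q ^ 2 = 0)
    (h1 : (1 + x) * (1 + y) = 2) (h2 : (1 + xf) * (1 + yf) = 2)
    (gx : x * ct ^ 2 * H ^ 2 = c ^ 2 * a * xf) (gy : y * ct' ^ 2 * K ^ 2 = c ^ 2 * a * yf)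
    (hc : ct' ^ 2 * (1 - x ^ 2) * xf = ct ^ 2 * (1 - xf ^ 2) * x)
    (hm : (1 + x) * H = e * ((1 + xf) * K) + q * z6) (he : e * e = 1)
    (ux : IsUnit x) (uy : IsUnit y) (uct : IsUnit ct) (uct' : IsUnit ct') (u2 : IsUnit (2 : A))
    (uK : IsUnit K) : (1 + x) * H = e * ((1 + xf) * K) := by
  have uf : IsUnit (1 + xf) := isUnit_of_mul_isUnit_left (h2 ▸ u2)
  refine sq_cancel hq ?_ hm he u2 (uf.mul uK)
  have hu : IsUnit (x * y * ct ^ 2 * ct' ^ 2) :=
    ((ux.mul uy).mul (uct.pow 2)).mul (uct'.pow 2)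
  apply hu.mul_left_cancel
  have e1 : 1 - x ^ 2 = y * (1 + x) ^ 2 := by linear_combination -(1 + x) * h1
  have e2 : 1 - xf ^ 2 = yf * (1 + xf) ^ 2 := by linear_combination -(1 + xf) * h2
  rw [e1, e2] at hc
  linear_combination (y * ct' ^ 2 * (1 + x) ^ 2) * gx + c ^ 2 * a * hc
    - (ct ^ 2 * x * (1 + xf) ^ 2) * gy

theorem core_main {q x y xf yf X Y U V W a ct ct' kap S H K P c e Mx My u v w z1 z2 z3 z4 z5 : A}
    (hq : q ^ 2 = 0)
    (h1 : (1 + x) * (1 + y) = 2) (h2 : (1 + xf) * (1 + yf) = 2)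
    (hX : X = xf + q * z1) (hY : Y = yf + q * z2) (hU : U = 1 + xf + q * z3)
    (hV : V = 1 + yf + q * z4) (hW : W = 1 + xf * yf + q * z5)
    (hu : u * (1 + x) = U ^ 2) (hv : v * (1 + y) = V ^ 2) (hw : w * (1 + x * y) = W ^ 2)
    (ha : a ^ 2 = 1)
    (gx : x * ct ^ 2 * H ^ 2 = c ^ 2 * a * xf) (gy : y * ct' ^ 2 * K ^ 2 = c ^ 2 * a * yf)
    (k1 : (1 + x * y) ^ 2 = kap * (x * y)) (k2 : (1 + xf * yf) ^ 2 = kap * (xf * yf))
    (hm : (1 + x) * H = e * ((1 + xf) * K)) (he : e * e = 1)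
    (hP : c * P = H * K * (2 * W - 2 * (Y * U) - 2 * (V * X) + X + Y + Y * X - 1)
      + e * (Y * K * Mx + X * H * My))
    (hMx : Mx = u * K) (hMy : My = v * H) (hPS : P = w * S)
    (uxf : IsUnit xf) (uyf : IsUnit yf) (u2 : IsUnit (2 : A)) (uc : IsUnit c)
    (u1 : IsUnit (1 + x * y)) (uw : IsUnit w) :
    S ^ 2 * ct ^ 2 * ct' ^ 2 = c ^ 2 := by
  have ux1 : IsUnit (1 + x) := isUnit_of_mul_isUnit_left (h1 ▸ u2)
  have uy1 : IsUnit (1 + y) := isUnit_of_mul_isUnit_right (h1 ▸ u2)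
  have uxf1 : IsUnit (1 + xf) := isUnit_of_mul_isUnit_left (h2 ▸ u2)
  have uyf1 : IsUnit (1 + yf) := isUnit_of_mul_isUnit_right (h2 ▸ u2)
  -- the other relation
  have hm' : (1 + y) * K = e * ((1 + yf) * H) := by
    apply u2.mul_left_cancel
    linear_combination (-(e * (1 + y) * (1 + yf))) * hm
      + (e * (1 + yf) * H) * h1 - (1 + y) * K * h2 - ((1 + y) * (1 + xf) * (1 + yf) * K) * he
  -- the two products
  have r1 : e * (K * u) = H * (2 * U - (1 + xf)) := by
    apply ux1.mul_left_cancel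
    apply uxf1.mul_left_cancel
    have e1 : U ^ 2 = (1 + xf) * (2 * U - (1 + xf)) := by
      rw [hU]
      linear_combination z3 ^ 2 * hq
    linear_combination (e * (1 + xf) * K) * hu + (e * (1 + xf) * K) * e1
      - ((1 + xf) * (2 * U - (1 + xf))) * hm
  have r2 : e * (H * v) = K * (2 * V - (1 + yf)) := by
    apply uy1.mul_left_cancel
    apply uyf1.mul_left_cancel
    have e1 : V ^ 2 = (1 + yf) * (2 * V - (1 + yf)) := by
      rw [hV]
      linear_combination z4 ^ 2 * hq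
    linear_combination (e * (1 + yf) * H) * hv + (e * (1 + yf) * H) * e1
      - ((1 + yf) * (2 * V - (1 + yf))) * hm'
  have r3 : c * P = H * K * (2 * W - (1 + xf * yf)) := by
    have e3 : (X - xf) * (Y - yf) = 0 := by
      rw [hX, hY]
      linear_combination z1 * z2 * hq
    rw [hP, hMx, hMy]
    linear_combination (Y * K) * r1 + (X * H) * r2 + H * K * e3
  have r4 : c * P * (1 + xf * yf) = H * K * W ^ 2 := by
    have e4 : (2 * W - (1 + xf * yf)) * (1 + xf * yf) = W ^ 2 := by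
      rw [hW]
      linear_combination -z5 ^ 2 * hq
    rw [r3]
    linear_combination H * K * e4
  have r5 : c * S * (1 + xf * yf) = H * K * (1 + x * y) := by
    apply uw.mul_left_cancel
    rw [hPS, ← hw] at r4
    linear_combination r4
  have ukap : IsUnit kap := isUnit_of_mul_isUnit_left (k1 ▸ u1.pow 2)
  have r6 : c ^ 2 * S ^ 2 * (xf * yf) = H ^ 2 * K ^ 2 * (x * y) := by
    apply ukap.mul_left_cancel
    linear_combination (c * S * (1 + xf * yf) + H * K * (1 + x * y)) * r5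
      - c ^ 2 * S ^ 2 * k2 + H ^ 2 * K ^ 2 * k1
  apply ((uc.pow 2).mul (uxf.mul uyf)).mul_left_cancel
  linear_combination (ct ^ 2 * ct' ^ 2) * r6 + (y * ct' ^ 2 * K ^ 2) * gx
    + (c ^ 2 * a * xf) * gy + c ^ 4 * xf * yf * ha

end core

section
variable {R : Type*} [CommRing R] [IsDomain R] [CharZero R] {k : Type*} [Field k]
  (p : ℕ) [Fact p.Prime] [CharP k p] (π : R →+* k)
  (hker : ∀ x, π x = 0 → (p : R) ∣ x)
  (n : ℕ) (hn : p = 2 * n + 1) (h3 : 3 < p)

omit [IsDomain R] [CharZero R] in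
/-- The kernel sum with one argument equal to one, on the involution curve. -/
theorem PQ_one_eval (n : ℕ) (x y : R) (h : (1 + x) * (1 + y) = 2) :
    (PQ n (1 : R)).eval x = (1 + x) ^ (4 * n + 1) * (G2 n : R[X]).eval y := by
  have e1 : 1 - x = y * (1 + x) := by linear_combination -h
  rw [PQ_one, eval_finsetSum, G2_eval, mul_sum]
  refine sum_congr rfl fun m hm => ?_
  have hm' : m ≤ n := by have := mem_range.mp hm; omega
  simp only [eval_mul, eval_pow, eval_add, eval_sub, eval_one, eval_X, eval_C]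
  rw [e1, mul_pow]
  have e2 : (1 + x) ^ (4 * n + 1) = (1 + x) ^ (4 * n + 1 - 2 * m) * (1 + x) ^ (2 * m) := by
    rw [← pow_add]
    congr 1
    omega
  rw [e2]
  ring

include hn h3

omit [IsDomain R] [CharZero R] in
theorem G2_one_mod : π ((G2 n : R[X]).eval 1) = (-1) ^ n := by
  rw [G2_one n, map_sum]
  simp only [map_natCast]
  rw [vsum_mod (k := k) p n hn h3, neg_pow, four_pow (k := k) p n hn h3, mul_one]

theorem rel_modp (x y xf : R) (h1 : (1 + x) * (1 + y) = 2) (hf : π xf = π x ^ p) :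
    π ((1 + x) * (G2 n : R[X]).eval x) = π ((-1) ^ n * ((1 + xf) * (G2 n : R[X]).eval y)) := by
  have hprime : p.Prime := Fact.out
  have e1 := PQ_modp p π n hn h3 (1 : R)
  have e2 := congrArg (eval (π x)) e1
  rw [eval_map_apply, PQ_one_eval n x y h1, G2_one_mod p π n hn h3, ← G2_map π n] at e2
  simp only [eval_mul, eval_C, eval_pow, eval_add, eval_one, eval_X, map_one, one_mul,
    eval_map_apply, map_mul, map_pow, map_add] at e2
  have n2 : (2 : k) ≠ 0 := by exact_mod_cast cast_ne (k := k) p 2 (by norm_num) (by omega)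
  have nx : (1 + π x) ≠ 0 := by
    intro h
    have e3 := congrArg π h1
    rw [map_mul, map_add, map_one, h, zero_mul, map_ofNat] at e3
    exact n2 e3.symm
  have e4 : (1 + π x) ^ (4 * n + 1) = (1 + π x) ^ p * (1 + π x) ^ (2 * n) := by
    rw [← pow_add]
    congr 1
    omega
  rw [e4] at e2
  have e5 : (1 + π x) ^ (2 * n) * π ((G2 n : R[X]).eval y) = (-1) ^ n * π ((G2 n : R[X]).eval x) := by
    apply mul_left_cancel₀ (pow_ne_zero p nx)
    linear_combination e2
  have e6 : (1 + π x) ^ p = 1 + π xf := by rw [add_pow_char, one_pow, hf]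
  have e7 : (1 + π x) ^ p = (1 + π x) * (1 + π x) ^ (2 * n) := by
    rw [← pow_succ']
    congr 1
  have e8 : ((-1 : k) ^ n) * (-1) ^ n = 1 := by rw [← mul_pow]; norm_num
  simp only [map_mul, map_add, map_one, map_pow, map_neg]
  rw [← e6, e7]
  linear_combination (-1 : k) ^ n * (-(1 + π x)) * e5 - (1 + π x) * π ((G2 n : R[X]).eval x) * e8

theorem G0 (x y S : R) (u1 : IsUnit (1 + x * y))
    (hS : (PQ n y).eval x = (1 + x * y) ^ (4 * n + 1) * S) :
    π (S * (1 + x * y) ^ (2 * n)) = π ((G2 n : R[X]).eval x * (G2 n : R[X]).eval y) := by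
  have e1 := PQ_modp p π n hn h3 y
  have e2 := congrArg (eval (π x)) e1
  rw [eval_map_apply, hS, ← G2_map π n] at e2
  simp only [eval_mul, eval_C, eval_pow, eval_add, eval_one, eval_X, map_one,
    eval_map_apply, map_mul, map_pow, map_add] at e2 ⊢
  have nx : (1 + π x * π y) ≠ 0 := by
    have := (u1.map π).ne_zero
    rwa [map_add, map_one, map_mul] at this
  apply mul_left_cancel₀ (pow_ne_zero p nx)
  have e4 : (1 + π x * π y) ^ (4 * n + 1) = (1 + π x * π y) ^ p * (1 + π x * π y) ^ (2 * n) := by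
    rw [← pow_add]
    congr 1
    omega
  rw [e4, mul_comm (π y) (π x)] at e2
  linear_combination e2

include hker

theorem G1 (hunit : ∀ x, π x ≠ 0 → IsUnit x) (x y xf yf a a' ct ct' kap S : R)
    (h1 : (1 + x) * (1 + y) = 2) (h2 : (1 + xf) * (1 + yf) = 2)
    (hx : (p : R) ∣ xf - x ^ p) (hy : (p : R) ∣ yf - y ^ p)
    (ha : a ^ 2 = 1) (haa : a * a' = 1)
    (gx : (p : R) ^ 2 ∣ x * ct ^ 2 * (G2 n : R[X]).eval x ^ 2 - 256 ^ n * a * xf)
    (gy : (p : R) ^ 2 ∣ y * ct' ^ 2 * (G2 n : R[X]).eval y ^ 2 - 256 ^ n * a' * yf)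
    (hc : ct' ^ 2 * (1 - x ^ 2) * xf = ct ^ 2 * (1 - xf ^ 2) * x)
    (ux : IsUnit x) (uy : IsUnit y) (uct : IsUnit ct) (uct' : IsUnit ct')
    (u1 : IsUnit (1 + x * y))
    (k1 : (1 + x * y) ^ 2 = kap * (x * y)) (k2 : (1 + xf * yf) ^ 2 = kap * (xf * yf))
    (hS : (PQ n y).eval x = (1 + x * y) ^ (4 * n + 1) * S) :
    (p : R) ^ 2 ∣ S ^ 2 * ct ^ 2 * ct' ^ 2 - 256 ^ n := by
  have hprime : p.Prime := Fact.out
  have hpk : (p : k) = 0 := CharP.cast_eq_zero k p
  have hπp : π (p : R) = 0 := by rw [map_natCast, hpk]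
  have n2 : (2 : k) ≠ 0 := by exact_mod_cast cast_ne (k := k) p 2 (by norm_num) (by omega)
  have u2R : IsUnit (2 : R) := hunit 2 (by rw [map_ofNat]; exact n2)
  have haa' : a' = a := by linear_combination a * haa - a' * ha
  obtain ⟨b, hb⟩ : ∃ b : R, 4 * b = 1 := by
    obtain ⟨b, hb⟩ := u2R.exists_right_inv
    exact ⟨b ^ 2, by linear_combination (2 * b + 1) * hb⟩
  have dvd_of : ∀ u v : R, π u = π v → ∃ z, u = v + p * z := by
    intro u v h
    obtain ⟨z, hz⟩ := hker (u - v) (by rw [map_sub, h, sub_self])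
    exact ⟨z, by linear_combination hz⟩
  have fr : ∀ u v : R, (p : R) ∣ u - v → π u = π v := by
    rintro u v ⟨z, hz⟩
    have := congrArg π hz
    rw [map_sub, map_mul, hπp, zero_mul, sub_eq_zero] at this
    exact this
  have fx : π xf = π x ^ p := by rw [fr _ _ hx, map_pow]
  have fy : π yf = π y ^ p := by rw [fr _ _ hy, map_pow]
  have uxf : IsUnit xf := hunit _ (by rw [fx]; exact pow_ne_zero _ (ux.map π).ne_zero)
  have uyf : IsUnit yf := hunit _ (by rw [fy]; exact pow_ne_zero _ (uy.map π).ne_zero)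
  have ua : IsUnit a := IsUnit.of_mul_eq_one a (by rw [← pow_two, ha])
  have u16 : IsUnit (16 ^ n : R) := by
    rw [show (16 : R) = 2 ^ 4 by norm_num]
    exact (u2R.pow 4).pow n
  have uB : IsUnit ((G2 n : R[X]).eval y) := by
    apply hunit
    intro h
    have h4 := fr _ _ (dvd_trans (dvd_pow_self _ two_ne_zero) gy)
    rw [map_mul, map_pow, h, zero_pow two_ne_zero, mul_zero] at h4
    have h5 : IsUnit (256 ^ n * a' * yf) := by
      rw [show (256 : R) = 16 * 16 by norm_num, mul_pow, haa']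
      exact ((u16.mul u16).mul ua).mul uyf
    exact (h5.map π).ne_zero h4.symm
  -- mod p relations
  obtain ⟨z1, hz1⟩ := dvd_of (x ^ p) xf (by rw [map_pow, fx])
  obtain ⟨z2, hz2⟩ := dvd_of (y ^ p) yf (by rw [map_pow, fy])
  obtain ⟨z3, hz3⟩ := dvd_of ((1 + x) ^ p) (1 + xf) (by
    simp only [map_pow, map_add, map_one]
    rw [add_pow_char, one_pow, fx])
  obtain ⟨z4, hz4⟩ := dvd_of ((1 + y) ^ p) (1 + yf) (by
    simp only [map_pow, map_add, map_one]
    rw [add_pow_char, one_pow, fy])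
  obtain ⟨z5, hz5⟩ := dvd_of ((1 + y * x) ^ p) (1 + xf * yf) (by
    simp only [map_pow, map_add, map_one, map_mul]
    rw [add_pow_char, one_pow, mul_pow, fx, fy, mul_comm])
  obtain ⟨z6, hz6⟩ := dvd_of _ _ (rel_modp p π n hn h3 x y xf h1 fx)
  have hp2 := pf2 p π hker n hn h3 b hb x y
  have f5 : ((-1 : R) ^ n) * (-1) ^ n = 1 := by rw [← mul_pow]; norm_num
  have h256 : (256 ^ n : R) = (16 ^ n) ^ 2 := by rw [← pow_mul, mul_comm, pow_mul]; norm_num
  have hMx := PQ_one_eval n x y h1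
  have hMy := PQ_one_eval n y x (by rw [mul_comm]; exact h1)
  have hu : (1 + x) ^ (4 * n + 1) * (1 + x) = ((1 + x) ^ p) ^ 2 := by
    rw [← pow_succ, ← pow_mul]
    congr 1
    omega
  have hv : (1 + y) ^ (4 * n + 1) * (1 + y) = ((1 + y) ^ p) ^ 2 := by
    rw [← pow_succ, ← pow_mul]
    congr 1
    omega
  have hw : (1 + x * y) ^ (4 * n + 1) * (1 + x * y) = ((1 + y * x) ^ p) ^ 2 := by
    rw [← pow_succ, ← pow_mul, mul_comm y x]
    congr 1
    omega
  -- transfer
  obtain ⟨ρ, hρ0⟩ : ∃ ρ : R →+* R ⧸ Ideal.span {(p : R) ^ 2}, ∀ x, ρ x = 0 ↔ (p : R) ^ 2 ∣ x :=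
    ⟨Ideal.Quotient.mk _, fun x => by
      rw [Ideal.Quotient.eq_zero_iff_mem, Ideal.mem_span_singleton]⟩
  have hq : (ρ (p : R)) ^ 2 = 0 := by rw [← map_pow, hρ0]
  have tr0 : ∀ u v : R, (p : R) ^ 2 ∣ u - v → ρ u = ρ v := by
    intro u v h
    rw [← sub_eq_zero, ← map_sub, hρ0]
    exact h
  have tr : ∀ {u v : R}, u = v → ρ u = ρ v := fun h => by rw [h]
  rw [← hρ0, map_sub, sub_eq_zero]
  rw [haa'] at gy
  rw [h256] at gx gy ⊢
  have gx' := tr0 _ _ gx
  have gy' := tr0 _ _ gy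
  have hP' := tr0 _ _ hp2
  have u2A := u2R.map ρ
  have t1 := tr h1
  have t2 := tr h2
  have t3 := tr hz1
  have t4 := tr hz2
  have t5 := tr hz3
  have t6 := tr hz4
  have t7 := tr hz5
  have t8 := tr hz6
  have t9 := tr hc
  have t10 := tr k1
  have t11 := tr k2
  have t12 := tr ha
  have t13 := tr f5
  have t14 := tr hMx
  have t15 := tr hMy
  have t16 := tr hu
  have t17 := tr hv
  have t18 := tr hw
  have t19 := tr hS
  have v1 := u1.map ρ
  have vw : IsUnit (ρ ((1 + x * y) ^ (4 * n + 1))) := (u1.pow _).map ρ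
  have vc := u16.map ρ
  have vK := uB.map ρ
  have vx := ux.map ρ
  have vy := uy.map ρ
  have vct := uct.map ρ
  have vct' := uct'.map ρ
  have vxf := uxf.map ρ
  have vyf := uyf.map ρ
  generalize (G2 n : R[X]).eval x = H0 at *
  generalize (G2 n : R[X]).eval y = K0 at *
  generalize (PQ n (1 : R)).eval x = Mx0 at *
  generalize (PQ n (1 : R)).eval y = My0 at *
  generalize (PQ n y).eval x = P0 at *
  generalize (16 ^ n : R) = c0 at *
  generalize ((-1) ^ n : R) = e0 at *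
  generalize (1 + x) ^ (4 * n + 1) = uu at *
  generalize (1 + y) ^ (4 * n + 1) = vv at *
  generalize (1 + x * y) ^ (4 * n + 1) = ww at *
  generalize (1 + x) ^ p = U0 at *
  generalize (1 + y) ^ p = V0 at *
  generalize (1 + y * x) ^ p = W0 at *
  generalize x ^ p = X0 at *
  generalize y ^ p = Y0 at *
  simp only [map_mul, map_add, map_sub, map_pow, map_one, map_ofNat] at *
  have hm := core_rel hq t1 t2 gx' gy' t9 t8 t13 vx vy vct vct' u2A vK
  exact core_main hq t1 t2 t3 t4 t5 t6 t7 t16 t17 t18 t12 gx' gy' t10 t11 hm t13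
    (by linear_combination hP') t14 t15 t19 vxf vyf u2A vc v1 vw

end

end Pool.Agent.H24.Sun
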