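import Mathlib
import Pool.Agent.H37.Sun.Cv1

/-! Symmetry `N(X) = μ X^h D(1/X)` of the numerator and denominator of a rational point. -/

namespace Pool.Agent.H24.Sun

open Pool.Agent.H37.Sun

section ps
open PowerSeries
variable {K : Type*} [Field K] [CharZero K]

omit [CharZero K] in
/-- The first order equation for `s = X f`. -/
theorem eq_f {Δ : PowerSeries K} {z' c : K} {f : PowerSeries K}
    (h : Δ * (X * dT (X * f) ^ 2)
      = C (c ^ 2) * (X * f) * (1 - 2 * C z' * (X * f) + (X * f) ^ 2)) :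
    Δ * (f + X * dT f) ^ 2 = C (c ^ 2) * f * (1 - 2 * C z' * (X * f) + (X * f) ^ 2) := by
  rw [dT_mul, dT_X, one_mul] at h
  apply mul_left_cancel₀ (X_ne_zero (R := K))
  linear_combination h

omit [CharZero K] in
theorem dT_X_pow (m : ℕ) (ε : PowerSeries K) :
    X ^ m * ε + X * dT (X ^ m * ε) = X ^ m * (((m : PowerSeries K) + 1) * ε + X * dT ε) := by
  have hp : dT (X ^ m : PowerSeries K) = (m : PowerSeries K) * X ^ (m - 1) := by
    unfold dT
    rw [PowerSeries.derivative_pow, PowerSeries.derivative_X, mul_one]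
  have hX : (X : PowerSeries K) * ((m : PowerSeries K) * X ^ (m - 1)) = (m : PowerSeries K) * X ^ m := by
    rcases m with _ | m
    · simp
    · rw [Nat.add_sub_cancel, pow_succ]; ring
  rw [dT_mul, hp]
  linear_combination ε * hX

omit [CharZero K] in
theorem cc_of {Δ : PowerSeries K} (hΔ : constantCoeff Δ = 1) {z' c : K} (hc : c ≠ 0)
    {f : PowerSeries K} (hf : f ≠ 0)
    (h : Δ * (f + X * dT f) ^ 2 = C (c ^ 2) * f * (1 - 2 * C z' * (X * f) + (X * f) ^ 2)) :
    constantCoeff f = c ^ 2 := by
  have h0 := congrArg constantCoeff h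
  simp only [map_mul, map_add, map_sub, map_pow, map_one, map_ofNat, hΔ, constantCoeff_X,
    constantCoeff_C, zero_mul, mul_zero, add_zero, sub_zero, one_mul] at h0
  have key : constantCoeff f ≠ 0 := by
    intro hf0
    -- write f = X^m g with m ≥ 1
    have hfin : f.order ≠ ⊤ := by
      intro ht
      exact hf (PowerSeries.order_eq_top.mp ht)
    obtain ⟨m, hm⟩ : ∃ m : ℕ, f.order = m := ENat.ne_top_iff_exists.mp hfin |>.imp fun _ h => h.symm
    obtain ⟨g, hg⟩ : X ^ m ∣ f := by
      rw [PowerSeries.X_pow_dvd_iff]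
      intro i hi
      exact PowerSeries.coeff_of_lt_order i (by rw [hm]; exact_mod_cast hi)
    have hg0 : constantCoeff g ≠ 0 := by
      intro hg0
      obtain ⟨g', hg'⟩ := PowerSeries.X_dvd_iff.mpr hg0
      have h1 : PowerSeries.coeff m f ≠ 0 := by
        have := PowerSeries.coeff_order hf
        rwa [hm, ENat.toNat_natCast] at this
      apply h1
      have h2 : X ^ (m + 1) ∣ f := ⟨g', by rw [hg, hg']; ring⟩
      exact PowerSeries.X_pow_dvd_iff.mp h2 m (Nat.lt_succ_self m)
    have hm0 : m ≠ 0 := by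
      rintro rfl
      rw [pow_zero, one_mul] at hg
      exact hg0 (hg ▸ hf0)
    rw [hg, dT_X_pow] at h
    have h3 : X ^ m * (Δ * (((m : PowerSeries K) + 1) * g + X * dT g) ^ 2)
        = C (c ^ 2) * g * (1 - 2 * C z' * (X * (X ^ m * g)) + (X * (X ^ m * g)) ^ 2) := by
      apply mul_left_cancel₀ (pow_ne_zero m (X_ne_zero (R := K)))
      linear_combination h
    have h4 := congrArg constantCoeff h3
    simp only [map_mul, map_add, map_sub, map_pow, map_one, map_ofNat, constantCoeff_X,
      constantCoeff_C, zero_mul, mul_zero, add_zero, sub_zero, mul_one, zero_pow hm0,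
      zero_pow two_ne_zero] at h4
    exact mul_ne_zero (pow_ne_zero 2 hc) hg0 h4.symm
  apply mul_right_cancel₀ key
  linear_combination h0

/-- Uniqueness of the nonzero solution. -/
theorem uniq_f {Δ : PowerSeries K} (hΔ : constantCoeff Δ = 1) {z' c : K} (hc : c ≠ 0)
    {f g : PowerSeries K} (hf : f ≠ 0) (hg : g ≠ 0)
    (h : Δ * (f + X * dT f) ^ 2 = C (c ^ 2) * f * (1 - 2 * C z' * (X * f) + (X * f) ^ 2))
    (h' : Δ * (g + X * dT g) ^ 2 = C (c ^ 2) * g * (1 - 2 * C z' * (X * g) + (X * g) ^ 2)) :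
    f = g := by
  have cf := cc_of hΔ hc hf h
  have cg := cc_of hΔ hc hg h'
  have key : ∀ m : ℕ, X ^ m ∣ f - g := by
    intro m
    induction m with
    | zero => rw [pow_zero]; exact one_dvd _
    | succ m ih =>
      obtain ⟨ε, hε⟩ := ih
      have h1 : (f + X * dT f) - (g + X * dT g)
          = X ^ m * (((m : PowerSeries K) + 1) * ε + X * dT ε) := by
        rw [← dT_X_pow, ← hε, dT_sub]
        ring
      have h2 : Δ * ((((m : PowerSeries K) + 1) * ε + X * dT ε)
            * ((f + X * dT f) + (g + X * dT g)))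
          = C (c ^ 2) * ε * (1 - 2 * C z' * (X * (f + g)) + X ^ 2 * (f ^ 2 + f * g + g ^ 2)) := by
        apply mul_left_cancel₀ (pow_ne_zero m (X_ne_zero (R := K)))
        linear_combination h - h' - Δ * ((f + X * dT f) + (g + X * dT g)) * h1
          + C (c ^ 2) * (1 - 2 * C z' * (X * (f + g)) + X ^ 2 * (f ^ 2 + f * g + g ^ 2)) * hε
      have h3 := congrArg constantCoeff h2
      simp only [map_mul, map_add, map_sub, map_pow, map_one, map_ofNat, constantCoeff_X,
        constantCoeff_C, zero_mul, mul_zero, add_zero, sub_zero, mul_one, one_mul, hΔ, cf, cg,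
        zero_pow two_ne_zero, map_natCast] at h3
      have h5 : (2 * (m : K) + 1) ≠ 0 := by
        have : (2 * (m : K) + 1) = ((2 * m + 1 : ℕ) : K) := by push_cast; ring
        rw [this]
        exact_mod_cast Nat.succ_ne_zero (2 * m)
      have h6 : c ^ 2 * (2 * (m : K) + 1) * constantCoeff ε = 0 := by linear_combination h3
      have h7 : constantCoeff ε = 0 :=
        (mul_eq_zero.mp h6).resolve_left (mul_ne_zero (pow_ne_zero 2 hc) h5)
      rw [hε, pow_succ]
      exact mul_dvd_mul_left _ (PowerSeries.X_dvd_iff.mpr h7)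
  have : f - g = 0 := by
    ext m
    have := PowerSeries.X_pow_dvd_iff.mp (key (m + 1)) m (Nat.lt_succ_self m)
    rw [this, map_zero]
  exact sub_eq_zero.mp this

end ps

section pol
open Polynomial
variable {K : Type*} [Field K] [CharZero K]

/-- `X` times the derivative. -/
noncomputable def th (f : K[X]) : K[X] := X * derivative f

omit [CharZero K] in
theorem coeff_th (f : K[X]) (i : ℕ) : (th f).coeff i = i * f.coeff i := by
  unfold th
  rcases i with _ | i
  · simp
  · rw [coeff_X_mul, coeff_derivative]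
    push_cast
    ring

omit [CharZero K] in
theorem natDegree_th (f : K[X]) {h : ℕ} (hf : f.natDegree ≤ h) : (th f).natDegree ≤ h := by
  rw [natDegree_le_iff_coeff_eq_zero]
  intro i hi
  rw [coeff_th, coeff_eq_zero_of_natDegree_lt (by omega), mul_zero]

omit [CharZero K] in
theorem reflect_th (f : K[X]) {h : ℕ} (hf : f.natDegree ≤ h) :
    reflect h (th f) = (h : K[X]) * reflect h f - th (reflect h f) := by
  ext i
  rw [coeff_sub, coeff_th, coeff_natCast_mul, coeff_reflect, coeff_reflect, coeff_th]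
  by_cases hi : i ≤ h
  · rw [revAt_le hi, Nat.cast_sub hi]
    ring
  · rw [revAt_eq_self_of_lt (by omega), coeff_eq_zero_of_natDegree_lt (by omega)]
    ring

omit [CharZero K] in
theorem coe_th (f : K[X]) : (th f : PowerSeries K) = PowerSeries.X * dT (f : PowerSeries K) := by
  unfold th dT
  rw [Polynomial.coe_mul, Polynomial.coe_X, PowerSeries.derivative_coe]

omit [CharZero K] in
theorem coe_inj_eq {f g : K[X]} (h : (f : PowerSeries K) = (g : PowerSeries K)) : f = g := by
  exact_mod_cast h

omit [CharZero K] in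
theorem coe_two : ((2 : K[X]) : PowerSeries K) = 2 := by
  have := Polynomial.coe_C (2 : K)
  rwa [map_ofNat, map_ofNat] at this

omit [CharZero K] in
/-- The polynomial equation for `N / D`. -/
theorem poly_eq {z z' c : K} {F : PowerSeries K} {N D : K[X]}
    (hF : (1 - 2 * PowerSeries.C z * PowerSeries.X + PowerSeries.X ^ 2) * (PowerSeries.X * dT F ^ 2)
      = PowerSeries.C (c ^ 2) * F * (1 - 2 * PowerSeries.C z' * F + F ^ 2))
    (hN : (N : PowerSeries K) = F * (D : PowerSeries K)) :
    (1 - C (2 * z) * X + X ^ 2) * ((th N * D - N * th D) * (th N * D - N * th D))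
      = C (c ^ 2) * (X * ((N * D) * (D * D - C (2 * z') * (N * D) + N * N))) := by
  apply coe_inj_eq
  have hd : dT (N : PowerSeries K) = dT F * D + F * dT (D : PowerSeries K) := by rw [hN, dT_mul]
  simp only [Polynomial.coe_mul, Polynomial.coe_add, Polynomial.coe_sub, Polynomial.coe_one,
    Polynomial.coe_pow, Polynomial.coe_X, Polynomial.coe_C, coe_th, hd, map_mul, map_ofNat,
    map_pow, coe_two] at hF ⊢
  rw [hN]
  generalize dT (D : PowerSeries K) = D1 at *
  generalize dT F = F1 at *
  generalize (D : PowerSeries K) = D0 at *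
  linear_combination (PowerSeries.X * D0 ^ 4) * hF

omit [CharZero K] in
/-- From the polynomial equation back to the power series. -/
theorem ps_eq {z z' c : K} {F : PowerSeries K} {N D : K[X]} (hD : D ≠ 0)
    (hN : (N : PowerSeries K) = F * (D : PowerSeries K))
    (h : (1 - C (2 * z) * X + X ^ 2) * ((th N * D - N * th D) * (th N * D - N * th D))
      = C (c ^ 2) * (X * ((N * D) * (D * D - C (2 * z') * (N * D) + N * N)))) :
    (1 - 2 * PowerSeries.C z * PowerSeries.X + PowerSeries.X ^ 2) * (PowerSeries.X * dT F ^ 2)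
      = PowerSeries.C (c ^ 2) * F * (1 - 2 * PowerSeries.C z' * F + F ^ 2) := by
  have hd : dT (N : PowerSeries K) = dT F * D + F * dT (D : PowerSeries K) := by rw [hN, dT_mul]
  have h1 := congrArg (fun f : K[X] => (f : PowerSeries K)) h
  have hD0 : (D : PowerSeries K) ≠ 0 := by exact_mod_cast hD
  simp only [Polynomial.coe_mul, Polynomial.coe_add, Polynomial.coe_sub, Polynomial.coe_one,
    Polynomial.coe_pow, Polynomial.coe_X, Polynomial.coe_C, coe_th, hd, map_mul, map_ofNat,
    map_pow, coe_two] at h1 ⊢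
  rw [hN] at h1
  have hne : (PowerSeries.X * (D : PowerSeries K) ^ 4) ≠ 0 :=
    mul_ne_zero PowerSeries.X_ne_zero (pow_ne_zero 4 hD0)
  apply mul_left_cancel₀ hne
  generalize dT (D : PowerSeries K) = D1 at *
  generalize dT F = F1 at *
  generalize (D : PowerSeries K) = D0 at *
  linear_combination h1

omit [CharZero K] in
theorem reflect_two (z : K) : reflect 2 (1 - C (2 * z) * X + X ^ 2 : K[X])
    = 1 - C (2 * z) * X + X ^ 2 := by
  have hX : reflect 2 (X : K[X]) = X := by
    have := reflect_monomial (R := K) 2 1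
    rwa [pow_one, show revAt 2 1 = 1 from rfl, pow_one] at this
  have hX2 : reflect 2 (X ^ 2 : K[X]) = 1 := by
    rw [reflect_monomial, show revAt 2 2 = 0 from rfl, pow_zero]
  rw [reflect_add, reflect_sub, reflect_C_mul, reflect_one, hX, hX2]
  ring

omit [CharZero K] in
theorem reflect_eq {z z' c : K} {N D : K[X]} {h : ℕ} (hN : N.natDegree ≤ h) (hD : D.natDegree ≤ h)
    (e : (1 - C (2 * z) * X + X ^ 2) * ((th N * D - N * th D) * (th N * D - N * th D))
      = C (c ^ 2) * (X * ((N * D) * (D * D - C (2 * z') * (N * D) + N * N)))) :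
    (1 - C (2 * z) * X + X ^ 2) * ((th (reflect h D) * reflect h N - reflect h D * th (reflect h N))
        * (th (reflect h D) * reflect h N - reflect h D * th (reflect h N)))
      = C (c ^ 2) * (X * ((reflect h D * reflect h N) * (reflect h N * reflect h N
        - C (2 * z') * (reflect h D * reflect h N) + reflect h D * reflect h D))) := by
  have hX : reflect 2 (X : K[X]) = X := by
    have := reflect_monomial (R := K) 2 1
    rwa [pow_one, show revAt 2 1 = 1 from rfl, pow_one] at this
  have dtN := natDegree_th N hN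
  have dtD := natDegree_th D hD
  have dND : (N * D).natDegree ≤ h + h := natDegree_mul_le.trans (by omega)
  have dDD : (D * D).natDegree ≤ h + h := natDegree_mul_le.trans (by omega)
  have dNN : (N * N).natDegree ≤ h + h := natDegree_mul_le.trans (by omega)
  have dW : (th N * D - N * th D).natDegree ≤ h + h :=
    (natDegree_sub_le _ _).trans (max_le (natDegree_mul_le.trans (by omega))
      (natDegree_mul_le.trans (by omega)))
  have dQ : (D * D - C (2 * z') * (N * D) + N * N).natDegree ≤ h + h :=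
    (natDegree_add_le _ _).trans (max_le ((natDegree_sub_le _ _).trans (max_le dDD
      ((natDegree_C_mul_le _ _).trans dND))) dNN)
  have dΔ : (1 - C (2 * z) * X + X ^ 2 : K[X]).natDegree ≤ 2 := by
    compute_degree
  have dX : (X : K[X]).natDegree ≤ 2 := natDegree_X_le.trans (by omega)
  have e1 := congrArg (reflect (2 + ((h + h) + (h + h)))) e
  rw [reflect_mul _ _ dΔ (natDegree_mul_le.trans (add_le_add dW dW)), reflect_mul _ _ dW dW,
    reflect_C_mul, reflect_mul _ _ dX (natDegree_mul_le.trans (add_le_add dND dQ)),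
    reflect_mul _ _ dND dQ, reflect_two, hX, reflect_add, reflect_sub, reflect_sub, reflect_C_mul,
    reflect_mul _ _ dtN hD, reflect_mul _ _ hN dtD, reflect_mul _ _ hN hD, reflect_mul _ _ hD hD,
    reflect_mul _ _ hN hN, reflect_th N hN, reflect_th D hD] at e1
  linear_combination e1

theorem symm {z z' c : K} {τ ρ σ : PowerSeries K}
    (hτ : τ ^ 2 = 1 - 2 * PowerSeries.C z * PowerSeries.X + PowerSeries.X ^ 2)
    (P : Pt τ z' c ρ σ) (hc : c ≠ 0) {N D : K[X]} {h : ℕ} (cop : IsCoprime N D)
    (hN : (N : PowerSeries K) = PowerSeries.X * ρ ^ 2 * (D : PowerSeries K))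
    (hNd : N.natDegree = h) (hNh : N.coeff h ≠ 0) (hDd : D.natDegree ≤ h) (hDh : D.coeff h = 0) :
    ∃ μ : K, μ ^ 2 = 1 ∧ ∀ i, i ≤ h → N.coeff i = μ * D.coeff (h - i) := by
  have hN0 : N ≠ 0 := by
    rintro rfl
    rw [coeff_zero] at hNh
    exact hNh rfl
  have hD0 : D ≠ 0 := by
    rintro rfl
    rw [Polynomial.coe_zero, mul_zero] at hN
    exact hN0 (by exact_mod_cast hN)
  have hF : (1 - 2 * PowerSeries.C z * PowerSeries.X + PowerSeries.X ^ 2)
      * (PowerSeries.X * dT (PowerSeries.X * ρ ^ 2) ^ 2)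
      = PowerSeries.C (c ^ 2) * (PowerSeries.X * ρ ^ 2)
        * (1 - 2 * PowerSeries.C z' * (PowerSeries.X * ρ ^ 2) + (PowerSeries.X * ρ ^ 2) ^ 2) := by
    rw [← hτ, ← P.e1, map_pow]
    linear_combination (PowerSeries.X * (τ * dT (PowerSeries.X * ρ ^ 2)
      + PowerSeries.C c * (ρ * σ))) * P.ds
  have e1 := poly_eq hF hN
  have e2 := reflect_eq hNd.le hDd e1
  obtain ⟨N', hN'⟩ : ∃ N', N' = reflect h N := ⟨_, rfl⟩
  obtain ⟨D', hD'⟩ : ∃ D', D' = reflect h D := ⟨_, rfl⟩
  rw [← hN', ← hD'] at e2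
  have hN'0 : N' ≠ 0 := by rw [hN', Ne, reflect_eq_zero_iff]; exact hN0
  have hD'0 : D' ≠ 0 := by rw [hD', Ne, reflect_eq_zero_iff]; exact hD0
  have cN' : N'.coeff 0 = N.coeff h := by rw [hN', coeff_reflect, revAt_zero]
  have cD' : D'.coeff 0 = 0 := by rw [hD', coeff_reflect, revAt_zero, hDh]
  have uN' : IsUnit (N' : PowerSeries K) := by
    rw [PowerSeries.isUnit_iff_constantCoeff, ← PowerSeries.coeff_zero_eq_constantCoeff_apply,
      Polynomial.coeff_coe, cN']
    exact isUnit_iff_ne_zero.mpr hNh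
  obtain ⟨I, hI⟩ := uN'.exists_right_inv
  have hG : (D' : PowerSeries K) = ((D' : PowerSeries K) * I) * (N' : PowerSeries K) := by
    linear_combination -(D' : PowerSeries K) * hI
  have hG2 := ps_eq hN'0 hG e2
  obtain ⟨g, hg⟩ : PowerSeries.X ∣ (D' : PowerSeries K) * I := by
    rw [PowerSeries.X_dvd_iff, map_mul, ← PowerSeries.coeff_zero_eq_constantCoeff_apply,
      Polynomial.coeff_coe, cD', zero_mul]
  rw [hg] at hG hG2
  have hg0 : g ≠ 0 := by
    rintro rfl
    rw [mul_zero, zero_mul] at hG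
    exact hD'0 (by exact_mod_cast hG)
  have hf0 : ρ ^ 2 ≠ 0 := by
    intro h0
    rw [h0, mul_zero, zero_mul] at hN
    exact hN0 (by exact_mod_cast hN)
  have hΔ : PowerSeries.constantCoeff (1 - 2 * PowerSeries.C z * PowerSeries.X
      + PowerSeries.X ^ 2 : PowerSeries K) = 1 := by
    simp
  have hfg := uniq_f hΔ hc hf0 hg0 (eq_f hF) (eq_f hG2)
  have hprod : N * N' = D * D' := by
    apply coe_inj_eq
    rw [Polynomial.coe_mul, Polynomial.coe_mul, hN, hG, hfg]
    ring
  have hdvd : N ∣ D' := cop.dvd_of_dvd_mul_left ⟨N', hprod.symm⟩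
  obtain ⟨M, hM⟩ := hdvd
  have hM0 : M ≠ 0 := by
    rintro rfl
    exact hD'0 (by rw [hM, mul_zero])
  have hdeg : D'.natDegree ≤ h := by
    rw [hD', natDegree_le_iff_coeff_eq_zero]
    intro i hi
    rw [coeff_reflect, revAt_eq_self_of_lt hi, coeff_eq_zero_of_natDegree_lt (by omega)]
  have hM1 : M.natDegree = 0 := by
    rw [hM, natDegree_mul hN0 hM0] at hdeg
    omega
  obtain ⟨μ, hμ⟩ : ∃ μ, M = C μ := ⟨_, eq_C_of_natDegree_eq_zero hM1⟩
  rw [hμ] at hM
  have hN2 : N' = D * C μ := by
    apply mul_left_cancel₀ hN0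
    rw [hprod, hM]
    ring
  have r1 : ∀ i, i ≤ h → D.coeff (h - i) = N.coeff i * μ := by
    intro i hi
    have := congrArg (fun f : K[X] => f.coeff i) hM
    simp only [coeff_mul_C] at this
    rwa [hD', coeff_reflect, revAt_le hi] at this
  have r2 : ∀ i, i ≤ h → N.coeff (h - i) = D.coeff i * μ := by
    intro i hi
    have := congrArg (fun f : K[X] => f.coeff i) hN2
    simp only [coeff_mul_C] at this
    rwa [hN', coeff_reflect, revAt_le hi] at this
  have r3 : ∀ i, i ≤ h → N.coeff i = μ * D.coeff (h - i) := by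
    intro i hi
    have := r2 (h - i) (by omega)
    rw [show h - (h - i) = i by omega] at this
    rw [this, mul_comm]
  refine ⟨μ, ?_, r3⟩
  apply mul_left_cancel₀ hNh
  have a1 := r3 h le_rfl
  have a2 := r1 h le_rfl
  rw [a2] at a1
  linear_combination -a1

end pol

end Pool.Agent.H24.Sun
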